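import Pool.Agent.H69.GN.Stm

set_option autoImplicit false

namespace Pool.Agent.H9.GN

open Finset Pool.Agent.H69.GN

theorem sqf_prod (V : Finset ℕ) (hV : ∀ p ∈ V, p.Prime) : Squarefree (∏ v ∈ V, v) := by
  refine Finset.squarefree_prod_of_pairwise_isCoprime ?_ ?_
  · intro p hp q hq hpq
    simp only [Function.onFun]
    exact Nat.coprime_iff_isRelPrime.mp ((Nat.coprime_primes (hV p hp) (hV q hq)).mpr hpq)
  · exact fun p hp => (Nat.Prime.prime (hV p hp)).squarefree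

theorem card_ker (n d : ℕ) : Nat.card ((powMonoidHom d : (ZMod n)ˣ →* (ZMod n)ˣ).ker)
    = Nat.card {x : (ZMod n)ˣ // x ^ d = 1} :=
  Nat.card_congr (Equiv.subtypeEquivRight (fun x => by
    rw [MonoidHom.mem_ker, powMonoidHom_apply]))

theorem cnt (hT : S_TOR) (hG : S_GCP) : S_CNT := by
  classical
  intro V hN
  have hVp : ∀ p ∈ V, p.Prime := fun p hp => (hN.1 p hp).1
  have hsq := sqf_prod V hVp
  have hker : ∀ D, D ⊆ V →
      Nat.card ((powMonoidHom (∏ p ∈ D, p) : (ZMod (∏ q ∈ V \ D, q))ˣ →* _).ker) =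
        ∏ p ∈ D with ∃ q ∈ V \ D, p ∣ q - 1, p := by
    intro D hD
    rw [card_ker, hT (V \ D) (fun q hq => hVp q (mem_sdiff.mp hq).1) _
      (Finset.prod_pos (fun p hp => (hVp p (hD hp)).pos)), hG V D hN hD]
  set S : Finset (Finset ℕ) := V.powerset.filter (fun D => ∀ p ∈ D, ∃ q ∈ V \ D, p ∣ q - 1)
    with hS
  have hfS : f V = Nat.card S := by
    rw [Nat.card_eq_fintype_card, Fintype.card_coe]
    unfold f
    congr
  rw [hfS]
  symm
  have hSm : ∀ D : S, D.1 ⊆ V ∧ ∀ p ∈ D.1, ∃ q ∈ V \ D.1, p ∣ q - 1 := fun D => by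
    have h1 : ∀ E ∈ S, E ⊆ V ∧ ∀ p ∈ E, ∃ q ∈ V \ E, p ∣ q - 1 := by
      intro E hE
      rw [hS, mem_filter, mem_powerset] at hE
      exact hE
    exact h1 D.1 D.2
  refine Nat.card_congr (Equiv.ofBijective
    (fun D : S => (⟨⟨∏ q ∈ V \ D.1, q, (powMonoidHom (∏ p ∈ D.1, p)).ker⟩, ?_⟩ :
      {p : Σ k : ℕ, Subgroup (ZMod k)ˣ // 0 < p.1 ∧ p.1 * Nat.card p.2 = ∏ v ∈ V, v})) ⟨?_, ?_⟩)
  · obtain ⟨h1, h2⟩ := hSm D
    refine ⟨Finset.prod_pos (fun p hp => (hVp p (mem_sdiff.mp hp).1).pos), ?_⟩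
    show (∏ q ∈ V \ D.1, q) * Nat.card
      ((powMonoidHom (∏ p ∈ D.1, p) : (ZMod (∏ q ∈ V \ D.1, q))ˣ →* _).ker) = _
    rw [hker D.1 h1, Finset.filter_true_of_mem h2, Finset.prod_sdiff h1]
  · intro D1 D2 h
    obtain ⟨h1, -⟩ := hSm D1
    obtain ⟨h2, -⟩ := hSm D2
    have h3 : ∏ q ∈ V \ D1.1, q = ∏ q ∈ V \ D2.1, q :=
      congrArg (fun x => x.1.1) h
    have h4 : V \ D1.1 = V \ D2.1 := by
      rw [← Nat.primeFactors_prod (s := V \ D1.1) (fun p hp => hVp p (mem_sdiff.mp hp).1), h3,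
        Nat.primeFactors_prod (s := V \ D2.1) (fun p hp => hVp p (mem_sdiff.mp hp).1)]
    apply Subtype.ext
    rw [← Finset.sdiff_sdiff_eq_self h1, h4, Finset.sdiff_sdiff_eq_self h2]
  · rintro ⟨⟨m, U⟩, hm0, hmU⟩
    simp only at hm0 hmU
    obtain ⟨D, hDV, hm⟩ : ∃ D : Finset ℕ, D ⊆ V ∧ m = ∏ q ∈ V \ D, q := by
      have hmV : m ∣ ∏ v ∈ V, v := ⟨_, hmU.symm⟩
      have hmsq : Squarefree m := hsq.squarefree_of_dvd hmV
      have hWV : m.primeFactors ⊆ V := by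
        have := Nat.primeFactors_mono hmV hsq.ne_zero
        rwa [Nat.primeFactors_prod hVp] at this
      refine ⟨V \ m.primeFactors, sdiff_subset, ?_⟩
      rw [Finset.sdiff_sdiff_eq_self hWV, Nat.prod_primeFactors_of_squarefree hmsq]
    subst hm
    have hU : Nat.card U = ∏ p ∈ D, p := by
      rw [← Finset.prod_sdiff hDV] at hmU
      exact Nat.eq_of_mul_eq_mul_left hm0 hmU
    have : NeZero (∏ q ∈ V \ D, q) := ⟨hm0.ne'⟩
    have hle : U ≤ (powMonoidHom (∏ p ∈ D, p) : (ZMod (∏ q ∈ V \ D, q))ˣ →* _).ker := by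
      intro x hx
      rw [MonoidHom.mem_ker, powMonoidHom_apply, ← hU]
      have := pow_card_eq_one' (x := (⟨x, hx⟩ : U))
      exact congrArg Subtype.val this
    have hdvd := Subgroup.card_dvd_of_le hle
    rw [hU, hker D hDV] at hdvd
    have hgood : ∀ p ∈ D, ∃ q ∈ V \ D, p ∣ q - 1 := by
      have h1 := Nat.primeFactors_mono hdvd (Finset.prod_pos (fun p hp =>
        (hVp p (hDV (mem_filter.mp hp).1)).pos)).ne'
      rw [Nat.primeFactors_prod (fun p hp => hVp p (hDV hp)),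
        Nat.primeFactors_prod (fun p hp => hVp p (hDV (mem_filter.mp hp).1))] at h1
      exact fun p hp => (mem_filter.mp (h1 hp)).2
    have hk2 : Nat.card ((powMonoidHom (∏ p ∈ D, p) : (ZMod (∏ q ∈ V \ D, q))ˣ →* _).ker)
        = Nat.card U := by
      rw [hker D hDV, hU, Finset.filter_true_of_mem hgood]
    have hUk := Subgroup.eq_of_le_of_card_ge hle hk2.le
    refine ⟨⟨D, ?_⟩, ?_⟩
    · rw [hS, mem_filter, mem_powerset]
      exact ⟨hDV, hgood⟩
    · apply Subtype.ext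
      simp only
      rw [← hUk]

end Pool.Agent.H9.GN
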