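import Pool.Agent.H69.GN.Stm

set_option autoImplicit false

namespace Pool.Agent.H9.GN

open Finset Pool.Agent.H69.GN

theorem rin : S_RIN := by
  classical
  intro V P r t hN hr hrt hF
  obtain ⟨hP, hVP, h3, h4, htp, ht3, htn, h8, h9⟩ := hF
  have htV : t ∉ V := fun h => htn (mem_union_left _ h)
  have htP : t ∉ P := fun h => htn (mem_union_right _ h)
  have hVP1 : ∀ x, x ∈ V → x ∉ P := fun x hx hx2 => (Finset.disjoint_left.mp hVP) hx hx2
  set T : Finset (Finset ℕ) := V.powerset.filter
    (fun D => ∀ p ∈ D, p ≠ r → ∃ q ∈ V \ D, p ∣ q - 1) with hT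
  have h1 : f (insert t (V ∪ P)) = T.card * P.powerset.card := by
    unfold f
    rw [← card_product]
    refine card_nbij' (fun D => (D ∩ V, D ∩ P)) (fun x => x.1 ∪ x.2) ?_ ?_ ?_ ?_
    · intro D hD
      simp only [coe_filter, mem_powerset, Set.mem_ofPred_eq] at hD
      obtain ⟨hD1, hD2⟩ := hD
      simp only [coe_product, Set.mem_prod, mem_coe, hT, mem_filter, mem_powerset]
      refine ⟨⟨inter_subset_right, ?_⟩, inter_subset_right⟩
      intro p hp hpr
      rw [mem_inter] at hp
      obtain ⟨q, hq, hpq⟩ := hD2 p hp.1
      rw [mem_sdiff, mem_insert, mem_union] at hq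
      refine ⟨q, ?_, hpq⟩
      rcases hq.1 with h | h | h
      · subst h
        rcases (h8 p (mem_union_left _ hp.2)).mp hpq with h | h
        · exact absurd h hpr
        · exact absurd h (hVP1 p hp.2)
      · rw [mem_sdiff, mem_inter]
        exact ⟨h, fun h2 => hq.2 h2.1⟩
      · exact absurd hpq (h4 p hp.2 q h)
    · intro x hx
      simp only [coe_product, Set.mem_prod, mem_coe, hT, mem_filter, mem_powerset] at hx
      obtain ⟨⟨hx1, hx2⟩, hx3⟩ := hx
      simp only [coe_filter, mem_powerset, Set.mem_ofPred_eq]
      refine ⟨?_, ?_⟩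
      · intro y hy
        rw [mem_union] at hy
        rw [mem_insert, mem_union]
        rcases hy with h | h
        · exact Or.inr (Or.inl (hx1 h))
        · exact Or.inr (Or.inr (hx3 h))
      · intro p hp
        have htD : t ∈ insert t (V ∪ P) \ (x.1 ∪ x.2) := by
          rw [mem_sdiff, mem_union]
          refine ⟨mem_insert_self _ _, ?_⟩
          rintro (h | h)
          · exact htV (hx1 h)
          · exact htP (hx3 h)
        rw [mem_union] at hp
        rcases hp with hp | hp
        · by_cases hpr : p = r
          · exact ⟨t, htD, (h8 p (mem_union_left _ (hx1 hp))).mpr (Or.inl hpr)⟩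
          · obtain ⟨q, hq, hpq⟩ := hx2 p hp hpr
            rw [mem_sdiff] at hq
            refine ⟨q, ?_, hpq⟩
            rw [mem_sdiff, mem_insert, mem_union, mem_union]
            refine ⟨Or.inr (Or.inl hq.1), ?_⟩
            rintro (h | h)
            · exact hq.2 h
            · exact hVP1 q hq.1 (hx3 h)
        · exact ⟨t, htD, (h8 p (mem_union_right _ (hx3 hp))).mpr (Or.inr (hx3 hp))⟩
    · intro D hD
      simp only [coe_filter, mem_powerset, Set.mem_ofPred_eq] at hD
      obtain ⟨hD1, hD2⟩ := hD
      have htD : t ∉ D := by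
        intro h
        obtain ⟨q, hq, hpq⟩ := hD2 t h
        rw [mem_sdiff, mem_insert] at hq
        rcases hq.1 with h5 | h5
        · subst h5
          exact hq.2 h
        · exact h9 q h5 hpq
      ext y
      simp only [mem_union, mem_inter]
      constructor
      · rintro (h | h)
        · exact h.1
        · exact h.1
      · intro h
        have := hD1 h
        rw [mem_insert, mem_union] at this
        rcases this with h5 | h5 | h5
        · subst h5
          exact absurd h htD
        · exact Or.inl ⟨h, h5⟩
        · exact Or.inr ⟨h, h5⟩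
    · intro x hx
      simp only [coe_product, Set.mem_prod, mem_coe, hT, mem_filter, mem_powerset] at hx
      obtain ⟨⟨hx1, hx2⟩, hx3⟩ := hx
      ext y
      · simp only [mem_union, mem_inter]
        constructor
        · rintro ⟨h | h, h5⟩
          · exact h
          · exact absurd (hx3 h) (hVP1 y h5)
        · intro h
          exact ⟨Or.inl h, hx1 h⟩
      · simp only [mem_union, mem_inter]
        constructor
        · rintro ⟨h | h, h5⟩
          · exact absurd h5 (hVP1 y (hx1 h))
          · exact h
        · intro h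
          exact ⟨Or.inr h, hx3 h⟩
  have h2 : (T.filter (fun D => r ∉ D)).card = f V := by
    unfold f
    congr 1
    ext D
    simp only [hT, mem_filter, mem_powerset]
    constructor
    · rintro ⟨⟨h5, h6⟩, h7⟩
      refine ⟨h5, fun p hp => h6 p hp ?_⟩
      rintro rfl
      exact h7 hp
    · rintro ⟨h5, h6⟩
      refine ⟨⟨h5, fun p hp _ => h6 p hp⟩, fun h => ?_⟩
      obtain ⟨q, hq, hpq⟩ := h6 r h
      exact hrt q (mem_sdiff.mp hq).1 hpq
  have h3' : (T.filter (fun D => ¬ r ∉ D)).card = f (V.erase r) := by
    unfold f
    refine card_nbij' (fun D => D.erase r) (fun D => insert r D) ?_ ?_ ?_ ?_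
    · intro D hD
      simp only [hT, coe_filter, mem_filter, mem_powerset, Set.mem_ofPred_eq, not_not] at hD ⊢
      obtain ⟨⟨h5, h6⟩, h7⟩ := hD
      refine ⟨erase_subset_erase _ h5, fun p hp => ?_⟩
      rw [mem_erase] at hp
      obtain ⟨q, hq, hpq⟩ := h6 p hp.2 hp.1
      rw [mem_sdiff] at hq
      refine ⟨q, ?_, hpq⟩
      rw [mem_sdiff, mem_erase, mem_erase]
      refine ⟨⟨?_, hq.1⟩, fun h => hq.2 h.2⟩
      rintro rfl
      exact hq.2 h7
    · intro D hD
      simp only [hT, coe_filter, mem_filter, mem_powerset, Set.mem_ofPred_eq, not_not] at hD ⊢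
      obtain ⟨h5, h6⟩ := hD
      refine ⟨⟨?_, ?_⟩, mem_insert_self _ _⟩
      · intro y hy
        rw [mem_insert] at hy
        rcases hy with h | h
        · rwa [h]
        · exact mem_of_mem_erase (h5 h)
      · intro p hp hpr
        rw [mem_insert] at hp
        rcases hp with h | h
        · exact absurd h hpr
        · obtain ⟨q, hq, hpq⟩ := h6 p h
          rw [mem_sdiff, mem_erase] at hq
          refine ⟨q, ?_, hpq⟩
          rw [mem_sdiff, mem_insert]
          refine ⟨hq.1.2, ?_⟩
          rintro (h | h)
          · exact hq.1.1 h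
          · exact hq.2 h
    · intro D hD
      simp only [hT, coe_filter, mem_filter, mem_powerset, Set.mem_ofPred_eq, not_not] at hD
      exact insert_erase hD.2
    · intro D hD
      simp only [coe_filter, mem_powerset, Set.mem_ofPred_eq] at hD
      exact erase_insert (fun h => (mem_erase.mp (hD.1 h)).1 rfl)
  rw [h1, card_powerset, ← h2, ← h3', card_filter_add_card_filter_not, mul_comm]

end Pool.Agent.H9.GN
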